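import Pool.Agent.Work.MP_e02782_co.Main

namespace Pool.Agent.Results.MP_e02782_co.IsotopismRatio

open Pool.Agent.Work.MP_e02782_co

/-- The proportion `s_n / I_n` of isotopism classes of Latin squares of order `n` that contain a
Latin square corresponding to a solution tends to zero. -/
theorem result :
    Filter.Tendsto (fun n : ℕ => (numSolClasses n : ℝ) / (numClasses n : ℝ))
      Filter.atTop (nhds 0) :=
  main

end Pool.Agent.Results.MP_e02782_co.IsotopismRatio
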